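import Pool.Agent.Q117.LF.Row5
import Pool.Agent.H141R2.FS.Main1

/-!
MP_40574a_nt (four squares whose linear form starts a prime quadruple): for every large `n` not divisible by `4` the values `x + 2 y + 5 z` and the quadruples
`(p - 2, p, p + 4, p + 10)` at their natural scale `(log n) ^ 4`: every admissible constellation of values, with a prime and a product of two primes at any two places,
in the right order of magnitude, and no other almost prime quadruple near it.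
-/

set_option autoImplicit false

namespace Pool.Agent.Results.MP_40574a_nt.EveryConstellation

/-- all prime factors of `m` are `> z` (so `0` is not rough) -/
def Rough (z : ℝ) (m : ℤ) : Prop := ∀ p : ℕ, p.Prime → (p : ℤ) ∣ m → z < p

/-- at most two prime factors (with multiplicity), all `> z` -/
def AtMostTwo (z : ℝ) (m : ℤ) : Prop := m.natAbs.primeFactorsList.length ≤ 2 ∧ Rough z m

/-- `H` misses a residue class modulo every prime -/
def Admissible (H : Finset ℤ) : Prop := ∀ p : ℕ, p.Prime → ∃ r : ℤ, ∀ h ∈ H, ¬ (p : ℤ) ∣ r + h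

/-- `p` is the value of `x + 2 y + 5 z` at a representation of `n` as a sum of four squares of natural numbers -/
def Value (n : ℕ) (p : ℤ) : Prop := ∃ x y z w : ℕ, n = x ^ 2 + y ^ 2 + z ^ 2 + w ^ 2 ∧ p = x + 2 * y + 5 * z

/-- the shifts of the quadruples -/
def Q : Finset ℤ := {-2, 0, 4, 10}

/-- the singular series of `E`, truncated at `y` -/
noncomputable def sing (y : ℕ) (E : Finset ℤ) : ℝ :=
  ∏ p ∈ (Finset.Icc 1 y).filter Nat.Prime, ((1 - ((E.image (fun e => e % (p : ℤ))).card : ℝ) / p) / (1 - 1 / (p : ℝ)) ^ E.card)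

/-- the `p` such that all the `p + e`, `e ∈ E`, are values and without prime factors `≤ z`, `p + e₁` is prime, `p + e₂` has at most two prime factors, all
`> n ^ (1/17)`, and every quadruple `q - 2, q, q + 4, q + 10` without prime factors `≤ z` and with `|q - p| ≤ L` consists of some of the `p + e` -/
def Good (n : ℕ) (z L : ℝ) (E : Finset ℤ) (e₁ e₂ : ℤ) : Set ℕ :=
  {p : ℕ | (∀ e ∈ E, Value n (p + e) ∧ Rough z (p + e)) ∧ ((p : ℤ) + e₁).toNat.Prime ∧ AtMostTwo ((n : ℝ) ^ (1 / 17 : ℝ)) ((p : ℤ) + e₂) ∧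
    ∀ q : ℤ, |((q - p : ℤ) : ℝ)| ≤ L → (∀ f ∈ Q, Rough z (q + f)) → ∀ f ∈ Q, q - p + f ∈ E}

open Pool.Agent.Q117.LF in
theorem VF_up (F : Finset ℤ) : ∃ C : ℝ, 0 < C ∧ ∀ y : ℕ, 2 ≤ y → VF y F ≤ C / Real.log y ^ F.card := by
  obtain ⟨C, hC, h⟩ := vupC F.card (fun _ => 1) (fscE F) (fun _ => le_rfl) (fun l m hlm heq => hlm (fscE_inj F (by
    push_cast at heq
    linarith)))
  refine ⟨C, hC, fun y hy => ?_⟩
  rw [← fsc_VN]
  exact h y hy

theorem ev (t : ℕ) (ht : 1 ≤ t) (X0 ν : ℝ) : ∃ N : ℕ, ∀ n : ℕ, N ≤ n → 30 ≤ n ∧ X0 ≤ Real.sqrt (29 * n) ∧ 3 ≤ Real.sqrt (29 * n) ∧ ν * Real.log n ^ 4 ≤ Real.sqrt (29 * n) ∧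
    Real.sqrt (29 * n) ^ (1 / ((t + 1 : ℕ) : ℝ)) ≤ (n : ℝ) ^ (1 / ((2 * t + 1 : ℕ) : ℝ)) ∧ (n : ℝ) ^ (1 / ((2 * t + 1 : ℕ) : ℝ)) ≤ Real.sqrt (29 * n) ^ (1 / (t : ℝ)) ∧
    (n : ℝ) ^ (1 / 17 : ℝ) ≤ Real.sqrt (29 * n) ^ (1 / 8 : ℝ) ∧ 5 ≤ (n : ℝ) ^ (1 / ((2 * t + 1 : ℕ) : ℝ)) := by
  have ht0 : (0 : ℝ) < t := by exact_mod_cast ht
  have hX : ∀ᶠ x : ℝ in Filter.atTop, 30 ≤ x ∧ X0 ≤ Real.sqrt (29 * x) ∧ 3 ≤ Real.sqrt (29 * x) ∧ ν * Real.log x ^ 4 ≤ Real.sqrt (29 * x) ∧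
      Real.sqrt (29 * x) ^ (1 / ((t + 1 : ℕ) : ℝ)) ≤ x ^ (1 / ((2 * t + 1 : ℕ) : ℝ)) ∧ x ^ (1 / ((2 * t + 1 : ℕ) : ℝ)) ≤ Real.sqrt (29 * x) ^ (1 / (t : ℝ)) ∧
      x ^ (1 / 17 : ℝ) ≤ Real.sqrt (29 * x) ^ (1 / 8 : ℝ) ∧ 5 ≤ x ^ (1 / ((2 * t + 1 : ℕ) : ℝ)) := by
    have hs : Filter.Tendsto (fun x : ℝ => Real.sqrt (29 * x)) Filter.atTop Filter.atTop :=
      Real.tendsto_sqrt_atTop.comp (Filter.tendsto_id.const_mul_atTop (by norm_num))
    have hl : ∀ᶠ x : ℝ in Filter.atTop, ν * Real.log x ^ 4 ≤ Real.sqrt (29 * x) := by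
      have h2 := (isLittleO_log_rpow_rpow_atTop ((4 : ℕ) : ℝ) (show (0 : ℝ) < 1 / 2 by norm_num)).tendsto_div_nhds_zero
      have h3 := (h2.const_mul ν).eventually (gt_mem_nhds (show ν * 0 < 1 by norm_num))
      filter_upwards [h3, Filter.eventually_gt_atTop 0] with x g1 g2
      rw [Real.rpow_natCast, ← mul_div_assoc, div_lt_one (by positivity), ← Real.sqrt_eq_rpow] at g1
      exact g1.le.trans (Real.sqrt_le_sqrt (by linarith))
    have hz : Filter.Tendsto (fun x : ℝ => x ^ (1 / ((2 * t + 1 : ℕ) : ℝ))) Filter.atTop Filter.atTop := tendsto_rpow_atTop (by positivity)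
    have hp : ∀ᶠ x : ℝ in Filter.atTop, Real.sqrt (29 * x) ^ (1 / ((t + 1 : ℕ) : ℝ)) ≤ x ^ (1 / ((2 * t + 1 : ℕ) : ℝ)) := by
      have hd : (0 : ℝ) < 1 / ((2 * t + 1 : ℕ) : ℝ) - 1 / (2 * ((t + 1 : ℕ) : ℝ)) := by
        rw [sub_pos]
        apply one_div_lt_one_div_of_lt (by positivity)
        push_cast
        linarith
      have h1 : Filter.Tendsto (fun x : ℝ => x ^ (1 / ((2 * t + 1 : ℕ) : ℝ) - 1 / (2 * ((t + 1 : ℕ) : ℝ)))) Filter.atTop Filter.atTop := tendsto_rpow_atTop hd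
      filter_upwards [h1.eventually_ge_atTop ((29 : ℝ) ^ (1 / (2 * ((t + 1 : ℕ) : ℝ)))), Filter.eventually_gt_atTop 0] with x g1 g2
      rw [Real.sqrt_eq_rpow, ← Real.rpow_mul (by positivity), Real.mul_rpow (by norm_num) g2.le]
      have e1 : (1 / 2 : ℝ) * (1 / ((t + 1 : ℕ) : ℝ)) = 1 / (2 * ((t + 1 : ℕ) : ℝ)) := by ring
      rw [e1]
      calc (29 : ℝ) ^ (1 / (2 * ((t + 1 : ℕ) : ℝ))) * x ^ (1 / (2 * ((t + 1 : ℕ) : ℝ))) ≤
            x ^ (1 / ((2 * t + 1 : ℕ) : ℝ) - 1 / (2 * ((t + 1 : ℕ) : ℝ))) * x ^ (1 / (2 * ((t + 1 : ℕ) : ℝ))) := by gcongr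
        _ = x ^ (1 / ((2 * t + 1 : ℕ) : ℝ)) := by rw [← Real.rpow_add g2]; congr 1; ring
    filter_upwards [Filter.eventually_ge_atTop 30, hs.eventually_ge_atTop X0, hs.eventually_ge_atTop 3, hl, hp, hz.eventually_ge_atTop 5] with x g1 g2 g3 g4 g5 g6
    have hx1 : (1 : ℝ) ≤ x := by linarith
    refine ⟨g1, g2, g3, g4, g5, ?_, ?_, g6⟩
    · rw [Real.sqrt_eq_rpow, ← Real.rpow_mul (by positivity)]
      calc x ^ (1 / ((2 * t + 1 : ℕ) : ℝ)) ≤ x ^ ((1 / 2 : ℝ) * (1 / (t : ℝ))) := by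
            apply Real.rpow_le_rpow_of_exponent_le hx1
            have e1 : (1 / 2 : ℝ) * (1 / (t : ℝ)) = 1 / (2 * t) := by ring
            rw [e1]
            apply one_div_le_one_div_of_le (by positivity)
            push_cast
            linarith
        _ ≤ (29 * x) ^ ((1 / 2 : ℝ) * (1 / (t : ℝ))) := Real.rpow_le_rpow (by linarith) (by linarith) (by positivity)
    · rw [Real.sqrt_eq_rpow, ← Real.rpow_mul (by positivity)]
      calc x ^ (1 / 17 : ℝ) ≤ x ^ ((1 / 2 : ℝ) * (1 / 8 : ℝ)) := Real.rpow_le_rpow_of_exponent_le hx1 (by norm_num)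
        _ ≤ (29 * x) ^ ((1 / 2 : ℝ) * (1 / 8 : ℝ)) := Real.rpow_le_rpow (by linarith) (by linarith) (by positivity)
  obtain ⟨Y, hY⟩ := Filter.eventually_atTop.1 hX
  refine ⟨⌈Y⌉₊, fun n hn => ?_⟩
  obtain ⟨g1, g2⟩ := hY n ((Nat.le_ceil _).trans (by exact_mod_cast hn))
  exact ⟨by exact_mod_cast g1, g2⟩

theorem cop {z : ℝ} (hz : 5 ≤ z) {m : ℤ} (h : Rough z m) : Nat.Coprime m.natAbs 30 := by
  have key : ∀ p : ℕ, p.Prime → (p : ℝ) ≤ 5 → ¬ p ∣ m.natAbs := fun p hp h5 hd => by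
    have := h p hp (Int.natCast_dvd.2 hd)
    linarith
  have h2 := (Nat.Prime.coprime_iff_not_dvd Nat.prime_two).2 (key 2 Nat.prime_two (by norm_num))
  have h3 := (Nat.Prime.coprime_iff_not_dvd Nat.prime_three).2 (key 3 Nat.prime_three (by norm_num))
  have h5 := (Nat.Prime.coprime_iff_not_dvd Nat.prime_five).2 (key 5 Nat.prime_five (by norm_num))
  have e : 30 = 2 * (3 * 5) := by norm_num
  rw [e]
  exact (Nat.Coprime.mul_right h2.symm (Nat.Coprime.mul_right h3.symm h5.symm))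

open Pool.Agent.Q117.LF in
theorem t60_fac' (E : Finset ℤ) (p : ℕ) (hp : 0 < p) : 0 ≤ 1 - (oF E p : ℝ) / p := by
  classical
  have hp0 : (0 : ℤ) < p := by exact_mod_cast hp
  have h : E.image (fun e : ℤ => e % (p : ℤ)) ⊆ Finset.Ico 0 (p : ℤ) := by
    intro x hx
    obtain ⟨e, _, rfl⟩ := Finset.mem_image.mp hx
    exact Finset.mem_Ico.mpr ⟨Int.emod_nonneg _ hp0.ne', Int.emod_lt_of_pos _ hp0⟩
  have h1 := Finset.card_le_card h
  rw [Int.card_Ico] at h1
  have h2 : oF E p ≤ p := by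
    unfold oF
    omega
  rw [sub_nonneg, div_le_one (by exact_mod_cast hp)]
  exact_mod_cast h2

open Pool.Agent.Q117.LF in
theorem result : ∀ k : ℕ, ∃ t : ℕ, 1 ≤ t ∧ ∃ c : ℝ, 0 < c ∧ ∃ ν : ℝ, 0 < ν ∧ ∃ N : ℕ, ∀ n : ℕ, N ≤ n → ¬ 4 ∣ n → ∀ E : Finset ℤ, E.card ≤ k →
    (∀ e ∈ E, 0 ≤ e ∧ (e : ℝ) ≤ Real.sqrt n / 1000) → Admissible E → ∀ e₁ ∈ E, ∀ e₂ ∈ E, e₁ ≠ e₂ → ∀ y : ℕ, n ≤ y →
      c * (Real.sqrt n / Real.log n ^ E.card * sing y E) ≤ ((Good n ((n : ℝ) ^ (1 / (t : ℝ))) (ν * Real.log n ^ 4) E e₁ e₂).ncard : ℝ) := by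
  classical
  intro k
  obtain ⟨t, ht, hFt⟩ := fscC (k + 4) 60 1 (by norm_num)
  obtain ⟨c₁, hc₁, ν₁, hν₁, X0, hX⟩ := hFt (t + 1) (by omega)
  obtain ⟨c₂, hc₂, X2, hs⟩ := ssfC k
  obtain ⟨C, hC, hup⟩ := VF_up Q
  have hQc : Q.card = 4 := by decide
  rw [hQc] at hup
  obtain ⟨ν, hν⟩ : ∃ ν : ℝ, ν = ν₁ / (81 * C) := ⟨_, rfl⟩
  have hν0 : 0 < ν := by rw [hν]; positivity
  obtain ⟨N, hN⟩ := ev t ht (max X0 X2) ν
  refine ⟨2 * t + 1, by omega, c₁ * c₂, by positivity, ν, hν0, N, fun n hn h4 E hk hE ha e₁ m₁ e₂ m₂ hne y hy => ?_⟩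
  obtain ⟨q1, q2, q3, q4, q5, q6, q7, q8⟩ := hN n hn
  obtain ⟨X, hXe⟩ : ∃ X : ℝ, X = Real.sqrt (29 * n) := ⟨_, rfl⟩
  rw [← hXe] at q2 q3 q4 q5 q6 q7
  have hn30 : (30 : ℝ) ≤ n := by exact_mod_cast q1
  have hX2 : X ^ 2 = 29 * n := by rw [hXe]; exact Real.sq_sqrt (by positivity)
  obtain ⟨s, hse⟩ : ∃ s : ℝ, s = Real.sqrt n := ⟨_, rfl⟩
  have hs2 : s ^ 2 = n := by rw [hse]; exact Real.sq_sqrt (by positivity)
  have hs0 : 0 < s := by rw [hse]; exact Real.sqrt_pos.2 (by linarith)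
  have hX0' : 0 < X := by linarith
  have hsX : s ≤ X := by nlinarith
  have hXs : X ≤ 6 * s := by nlinarith
  have hXn : X ≤ n := by nlinarith
  rw [← hse] at hE ⊢
  have hlogX : 0 < Real.log X := Real.log_pos (by linarith)
  have hlogn : 0 < Real.log n := Real.log_pos (by linarith)
  have hlogXn : Real.log X ≤ Real.log n := Real.log_le_log hX0' hXn
  have hEb : ∀ e ∈ E, 0 ≤ (e : ℝ) ∧ (e : ℝ) ≤ s / 1000 := fun e he => ⟨by exact_mod_cast (hE e he).1, (hE e he).2⟩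
  have hmain := hX X ((le_max_left _ _).trans q2) E (by omega)
    (fun e he => by
      obtain ⟨h1, h2⟩ := hEb e he
      rw [abs_of_nonneg h1]
      push_cast
      linarith) ha e₁ m₁ e₂ m₂ hne
    (by
      obtain ⟨h1, h2⟩ := hEb e₁ m₁
      push_cast
      linarith)
    (fun _ => Q) (fun γ => ⟨⟨0, by decide⟩, by rw [hQc]; omega, fun f hf => by
      have : f = -2 ∨ f = 0 ∨ f = 4 ∨ f = 10 := by simpa [Q] using hf
      push_cast
      rcases this with rfl | rfl | rfl | rfl <;> norm_num <;> linarith,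
      fun p hp => by
        by_cases h2 : p = 2
        · subst h2
          exact ⟨1, by decide⟩
        · by_cases h3 : p = 3
          · subst h3
            exact ⟨1, by decide⟩
          · by_cases h5 : p = 5
            · subst h5
              exact ⟨4, by decide⟩
            · by_cases h11 : p = 11
              · subst h11
                exact ⟨4, by decide⟩
              refine ⟨1, fun f hf hd => ?_⟩
              have hf' : f = -2 ∨ f = 0 ∨ f = 4 ∨ f = 10 := by simpa [Q] using hf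
              rcases hf' with rfl | rfl | rfl | rfl
              · have h6 : (p : ℤ) ∣ 1 := by
                  have : (1 : ℤ) + -2 = -1 := by norm_num
                  rw [this] at hd
                  exact (dvd_neg).1 hd
                exact hp.one_lt.ne' (by exact_mod_cast Int.eq_one_of_dvd_one (by positivity) h6)
              · have h6 : (p : ℤ) ∣ 1 := by simpa using hd
                exact hp.one_lt.ne' (by exact_mod_cast Int.eq_one_of_dvd_one (by positivity) h6)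
              · have h6 : p ∣ 5 := by
                  have : (1 : ℤ) + 4 = ((5 : ℕ) : ℤ) := by norm_num
                  rw [this] at hd
                  exact_mod_cast hd
                exact h5 ((Nat.prime_dvd_prime_iff_eq hp Nat.prime_five).1 h6)
              · have h6 : p ∣ 11 := by
                  have : (1 : ℤ) + 10 = ((11 : ℕ) : ℤ) := by norm_num
                  rw [this] at hd
                  exact_mod_cast hd
                exact h11 ((Nat.prime_dvd_prime_iff_eq hp (by norm_num)).1 h6)⟩)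
    (ν * Real.log n ^ 4) (by positivity) q4
    (fun γ => by
      have hfl : (2 : ℕ) ≤ ⌊X⌋₊ := Nat.le_floor (by push_cast; linarith)
      have h1 := hup ⌊X⌋₊ hfl
      have h2 : Real.log n / 3 ≤ Real.log ⌊X⌋₊ := by
        have h3 : X / 2 ≤ (⌊X⌋₊ : ℝ) := by
          have := Nat.lt_floor_add_one X
          linarith
        have h4 : (n : ℝ) ≤ (X / 2) ^ 3 := by
          have : (X / 2) ^ 3 = X ^ 2 * (X / 8) := by ring
          rw [this, hX2]
          nlinarith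
        have h5 := Real.log_le_log (by linarith) h4
        rw [Real.log_pow] at h5
        have h6 := Real.log_le_log (by linarith) h3
        push_cast at h5
        linarith
      have h3 : VF ⌊X⌋₊ Q ≤ C / (Real.log n / 3) ^ 4 := by
        refine h1.trans ?_
        apply div_le_div_of_nonneg_left hC.le (by positivity)
        exact pow_le_pow_left₀ (by positivity) h2 4
      calc ν * Real.log n ^ 4 * VF ⌊X⌋₊ Q ≤ ν * Real.log n ^ 4 * (C / (Real.log n / 3) ^ 4) :=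
            mul_le_mul_of_nonneg_left h3 (by positivity)
        _ = ν₁ := by rw [hν]; field_simp; norm_num)
    ((n : ℝ) ^ (1 / ((2 * t + 1 : ℕ) : ℝ))) q5 q6
  have hlow := hs X ((le_max_right _ _).trans q2) E hk (fun e he => by
    obtain ⟨h1, h2⟩ := hEb e he
    rw [abs_of_nonneg h1]
    linarith) ha y (hXn.trans (by exact_mod_cast hy))
  obtain ⟨Sg, hSg⟩ : ∃ Sg : ℝ, Sg = sing y E := ⟨_, rfl⟩
  have hSge : ∏ p ∈ (Finset.Icc 1 y).filter Nat.Prime, ((1 - (oF E p : ℝ) / p) / (1 - 1 / (p : ℝ)) ^ E.card) = Sg := by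
    rw [hSg]
    unfold sing oF
    rfl
  rw [hSge] at hlow
  rw [← hSg]
  have hSg0 : 0 ≤ Sg := by
    rw [← hSge]
    apply Finset.prod_nonneg
    intro p hp
    have hpp := (Finset.mem_filter.1 hp).2
    have hp1 : (1 : ℝ) < p := by exact_mod_cast hpp.one_lt
    apply div_nonneg
    · exact (t60_fac' E p hpp.pos)
    · apply pow_nonneg
      rw [sub_nonneg, div_le_one (by linarith)]
      exact hp1.le
  have hfin : (Good n ((n : ℝ) ^ (1 / ((2 * t + 1 : ℕ) : ℝ))) (ν * Real.log n ^ 4) E e₁ e₂).Finite := by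
    apply Set.Finite.subset (Set.finite_Iic (8 * (n + 1)))
    rintro p ⟨h1, -⟩
    obtain ⟨⟨x, y, z, w, r1, r2⟩, -⟩ := h1 e₁ m₁
    have hx : x ≤ n + 1 := by nlinarith [Nat.zero_le (y ^ 2), Nat.zero_le (z ^ 2), Nat.zero_le (w ^ 2)]
    have hy : y ≤ n + 1 := by nlinarith [Nat.zero_le (x ^ 2), Nat.zero_le (z ^ 2), Nat.zero_le (w ^ 2)]
    have hz : z ≤ n + 1 := by nlinarith [Nat.zero_le (x ^ 2), Nat.zero_le (y ^ 2), Nat.zero_le (w ^ 2)]
    have he := (hE e₁ m₁).1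
    simp only [Set.mem_Iic]
    have : (p : ℤ) ≤ 8 * ((n : ℤ) + 1) := by
      have hx' : (x : ℤ) ≤ n + 1 := by exact_mod_cast hx
      have hy' : (y : ℤ) ≤ n + 1 := by exact_mod_cast hy
      have hz' : (z : ℤ) ≤ n + 1 := by exact_mod_cast hz
      linarith
    exact_mod_cast this
  calc c₁ * c₂ * (s / Real.log n ^ E.card * Sg) ≤ c₁ * (X * (c₂ * (1 / Real.log X ^ E.card * Sg))) := by
        have h1 : s / Real.log n ^ E.card ≤ X * (1 / Real.log X ^ E.card) := by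
          rw [mul_one_div]
          apply div_le_div₀ hX0'.le hsX (by positivity)
          exact pow_le_pow_left₀ hlogX.le hlogXn _
        calc c₁ * c₂ * (s / Real.log n ^ E.card * Sg) ≤ c₁ * c₂ * (X * (1 / Real.log X ^ E.card) * Sg) := by gcongr
          _ = _ := by ring
    _ ≤ c₁ * (X * VF ⌊X⌋₊ E) := by gcongr
    _ ≤ _ := hmain
    _ ≤ _ := by
      rw [← Set.ncard_coe_finset, Nat.cast_le]
      apply Set.ncard_le_ncard _ hfin
      intro p hp
      rw [Finset.mem_coe] at hp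
      unfold PtsH at hp
      rw [Finset.mem_filter] at hp
      obtain ⟨g0, g1, g2, g3, g4, g5, g6, g7⟩ := hp
      push_cast at g2
      refine ⟨fun e he => ?_, ?_, ⟨g5.1, fun l hl hd => lt_of_le_of_lt q7 (g5.2 l hl hd)⟩, fun q hq hqQ => ?_⟩
      · have hR : Rough ((n : ℝ) ^ (1 / ((2 * t + 1 : ℕ) : ℝ))) ((p : ℤ) + e) := g6 e he
        refine ⟨?_, hR⟩
        obtain ⟨h1, h2⟩ := hEb e he
        obtain ⟨m, hm⟩ : ∃ m : ℕ, (m : ℤ) = p + e := ⟨((p : ℤ) + e).toNat, Int.toNat_of_nonneg (by have := (hE e he).1; positivity)⟩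
        have hmr : (m : ℝ) = p + e := by exact_mod_cast hm
        have hco := cop q8 hR
        rw [← hm, Int.natAbs_natCast] at hco
        have b1 : 29 * n ≤ m ^ 2 := by
          have : ((29 * n : ℕ) : ℝ) ≤ ((m ^ 2 : ℕ) : ℝ) := by
            push_cast
            rw [← hX2, hmr]
            apply pow_le_pow_left₀ hX0'.le
            linarith
          exact_mod_cast this
        have b2 : m ^ 2 ≤ 30 * n := by
          have h3 : (m : ℝ) ≤ 61 / 60 * X + s / 1000 := by rw [hmr]; linarith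
          have h4 : (m : ℝ) ^ 2 ≤ (61 / 60 * X + s / 1000) ^ 2 := pow_le_pow_left₀ (Nat.cast_nonneg _) h3 2
          have h5 : (61 / 60 * X + s / 1000) ^ 2 ≤ 30 * n := by
            have e1 : (61 / 60 * X + s / 1000) ^ 2 = 3721 / 3600 * X ^ 2 + 61 / 30000 * (X * s) + s ^ 2 / 1000000 := by ring
            rw [e1, hX2, hs2]
            have h6 : X * s ≤ 6 * n := by
              rw [← hs2]
              nlinarith
            nlinarith
          have : ((m ^ 2 : ℕ) : ℝ) ≤ ((30 * n : ℕ) : ℝ) := by push_cast; linarith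
          exact_mod_cast this
        obtain ⟨x, y, z, w, v1, v2⟩ := Pool.Agent.H141R2.FS.rep h4 hco b1 b2
        refine ⟨x, y, z, w, v1, ?_⟩
        rw [← hm, ← v2]
        push_cast
        ring
      · have e : ((p : ℤ) + e₁).toNat = ((p : ℤ) + e₁).natAbs := by omega
        rw [e]; exact g4
      · exact g7 0 (q - p) hq (fun f hf => by
          have e : (p : ℤ) + (q - p) + f = q + f := by ring
          rw [e]; exact hqQ f hf)

end Pool.Agent.Results.MP_40574a_nt.EveryConstellation
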