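import Pool.Agent.Q117.LF.Main7

/-!
MP_40574a_nt (four squares whose linear form starts a prime quadruple): for every large `n` not divisible by `4` and EVERY admissible set of shifts up to the scale of
Rankin, in particular for `{-2, 0, 4, 10}`, a value `p = x + 2 y + 5 z` with a prime and a product of two primes at any two places and exactly the prescribed
surroundings.
-/

set_option autoImplicit false

namespace Pool.Agent.Results.MP_40574a_nt.PrescribedSurroundings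

/-- the scale of Rankin -/
noncomputable def R (X : ℝ) : ℝ :=
  Real.log X * Real.log (Real.log X) * Real.log (Real.log (Real.log (Real.log X))) / (Real.log (Real.log (Real.log X))) ^ 2

/-- all prime factors of `m` are `> z` (so `0` is not rough) -/
def Rough (z : ℝ) (m : ℤ) : Prop := ∀ p : ℕ, p.Prime → (p : ℤ) ∣ m → z < p

/-- at most two prime factors (with multiplicity), all `> z` -/
def AtMostTwo (z : ℝ) (m : ℤ) : Prop := m.natAbs.primeFactorsList.length ≤ 2 ∧ Rough z m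

/-- `H` misses a residue class modulo every prime -/
def Admissible (H : Finset ℤ) : Prop := ∀ p : ℕ, p.Prime → ∃ r : ℤ, ∀ h ∈ H, ¬ (p : ℤ) ∣ r + h

/-- `p` is the value of `x + 2 y + 5 z` at a representation of `n` as a sum of four squares of natural numbers -/
def Value (n p : ℕ) : Prop := ∃ x y z w : ℕ, n = x ^ 2 + y ^ 2 + z ^ 2 + w ^ 2 ∧ p = x + 2 * y + 5 * z

/-- the values `p` with `p + h₁` prime, `p + h₂` with at most two prime factors, all `> n ^ (1/17)`, no `p + h`, `h ∈ H`, with a prime factor `≤ n ^ (1/t)`, and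
every other integer at distance `≤ D` from `p` with a prime factor `≤ log n` -/
def Good (t n : ℕ) (D : ℝ) (H : Finset ℤ) (h₁ h₂ : ℤ) : Set ℕ :=
  {p : ℕ | Value n p ∧ ((p : ℤ) + h₁).toNat.Prime ∧ AtMostTwo ((n : ℝ) ^ (1 / 17 : ℝ)) ((p : ℤ) + h₂) ∧
    (∀ h ∈ H, Rough ((n : ℝ) ^ (1 / (t : ℝ))) ((p : ℤ) + h)) ∧ ∀ s : ℤ, |(s : ℝ)| ≤ D → s ∉ H → ¬ Rough (Real.log n) ((p : ℤ) + s)}

theorem result : ∀ k : ℕ, ∃ t : ℕ, 1 ≤ t ∧ ∃ c : ℝ, 0 < c ∧ ∃ N : ℕ, ∀ n : ℕ, N ≤ n → ¬ 4 ∣ n → ∀ H : Finset ℤ, H.card ≤ k →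
    {-2, 0, 4, 10} ⊆ H → (∀ h ∈ H, |(h : ℝ)| ≤ c * R n) → Admissible H → ∀ h₁ ∈ H, ∀ h₂ ∈ H, h₁ ≠ h₂ →
      (n : ℝ) ^ (49 / 100 : ℝ) ≤ ((Good t n (c * R n) H h₁ h₂).ncard : ℝ) := by
  classical
  intro k
  obtain ⟨t, ht, c, hc, N, h⟩ := Pool.Agent.Q117.LF.t51C Pool.Agent.Q117.LF.isoC k
  refine ⟨t, ht, c, hc, N, fun n hn h4 H hk h0 hH ha h₁ m₁ h₂ m₂ hne => ?_⟩
  refine (h n hn h4 H hk (h0 (by decide)) hH ha h₁ m₁ h₂ m₂ hne).trans ?_
  rw [← Set.ncard_coe_finset]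
  have hfin : (Good t n (c * R n) H h₁ h₂).Finite := by
    apply Set.Finite.subset (Set.finite_Iic (8 * n + 8))
    rintro p ⟨⟨x, y, z, w, e1, e2⟩, -⟩
    simp only [Set.mem_Iic]
    have hx : x ≤ n + 1 := by nlinarith [sq_nonneg (x : ℤ), Nat.zero_le (y ^ 2), Nat.zero_le (z ^ 2), Nat.zero_le (w ^ 2)]
    have hy : y ≤ n + 1 := by nlinarith [Nat.zero_le (x ^ 2), Nat.zero_le (z ^ 2), Nat.zero_le (w ^ 2)]
    have hz : z ≤ n + 1 := by nlinarith [Nat.zero_le (x ^ 2), Nat.zero_le (y ^ 2), Nat.zero_le (w ^ 2)]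
    omega
  have hsub : ((Pool.Agent.Q117.LF.Pts4 t n (c * R n) H h₁ h₂ : Finset ℕ) : Set ℕ) ⊆ Good t n (c * R n) H h₁ h₂ := by
    intro p hp
    unfold Pool.Agent.Q117.LF.Pts4 at hp
    exact (Finset.mem_filter.1 (Finset.mem_coe.1 hp)).2
  exact_mod_cast Set.ncard_le_ncard hsub hfin

end Pool.Agent.Results.MP_40574a_nt.PrescribedSurroundings
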