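import Pool.Agent.Q117.MG.Pry
import Pool.Agent.H141R2.FS.Main1

/-!
# MP_40574a_nt: constellations of values of the linear form in every class to a growing modulus and in every short interval
-/

set_option autoImplicit false

namespace Pool.Agent.Results.MP_40574a_nt.QuadruplesInClasses

open Finset
open Pool.Agent.Q117.LF (Ro)

/-- `p` is the value of `x + 2 y + 5 z` at a representation of `n` as a sum of four squares of natural numbers -/
def Value (n p : ℕ) : Prop := ∃ x y z w : ℕ, n = x ^ 2 + y ^ 2 + z ^ 2 + w ^ 2 ∧ p = x + 2 * y + 5 * z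

/-- the set of the integers `e ∈ E` -/
def ints (E : Finset ℕ) : Finset ℤ := E.image (fun e : ℕ => (e : ℤ))

/-- for every prime `p` not dividing `q` there is a translate of `E` without multiples of `p` -/
def Admissible (q : ℕ) (E : Finset ℤ) : Prop := ∀ p : ℕ, p.Prime → ¬ p ∣ q → ∃ r : ℤ, ∀ e ∈ E, ¬ (p : ℤ) ∣ r + e

/-- the number of the residue classes modulo `p` met by `E` -/
noncomputable def omega (E : Finset ℤ) (p : ℕ) : ℕ := (E.image (fun e : ℤ => e % (p : ℤ))).card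

/-- the product of `1 - omega / p` over the primes `p ≤ y` that do not divide `q` -/
noncomputable def dens (y q : ℕ) (E : Finset ℤ) : ℝ := ∏ p ∈ (Icc 1 y).filter (fun p : ℕ => p.Prime ∧ ¬ p ∣ q), (1 - (omega E p : ℝ) / p)

open Classical in
/-- the `m ≡ a (mod q)` of `(x, x + y]` with all the `m + e`, `e ∈ E`, values for `n` and without prime factors `≤ z`, with `m + e₀` a product of at most `R` primes, all `≥ w`, the other `m + e + q s`, `e ∈ E`, `|s| ≤ L`, with a prime factor `≤ z`, and for `0 < |s| ≤ L'` one of the `m + e + q s`, `e ∈ E`, with a prime factor `≤ z` -/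
noncomputable def Good (n q a : ℕ) (E : Finset ℕ) (e₀ R : ℕ) (w z L L' x y : ℝ) : Finset ℕ :=
  (Icc 1 ⌊x + y⌋₊).filter (fun m : ℕ => x < m ∧ m ≡ a [MOD q] ∧ (∀ e ∈ E, Value n (m + e) ∧ Ro z ((m : ℤ) + e)) ∧
    (m + e₀).primeFactorsList.length ≤ R ∧ (∀ p : ℕ, p.Prime → p ∣ m + e₀ → w ≤ p) ∧
    (∀ e ∈ E, ∀ s : ℤ, |(s : ℝ)| ≤ L → Ro z ((m : ℤ) + e + q * s) → ∃ f ∈ E, (f : ℤ) = e + q * s) ∧
    ∀ s : ℤ, s ≠ 0 → |(s : ℝ)| ≤ L' → ∃ e ∈ E, ¬ Ro z ((m : ℤ) + e + q * s))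

lemma coprime30 {m : ℕ} {z : ℝ} (hz : 5 ≤ z) (h : Ro z (m : ℤ)) : m.Coprime 30 := by
  rw [Nat.coprime_iff_gcd_eq_one]
  by_contra hne
  obtain ⟨p, hp, hp1, hp2⟩ := Nat.Prime.not_coprime_iff_dvd.1 hne
  have h5 : p ≤ 5 := by
    have h1 : p ∣ 2 * 3 * 5 := by norm_num; exact hp2
    rcases (Nat.Prime.dvd_mul hp).1 h1 with h1 | h1
    · rcases (Nat.Prime.dvd_mul hp).1 h1 with h1 | h1
      · have := Nat.le_of_dvd (by norm_num) h1; omega
      · have := Nat.le_of_dvd (by norm_num) h1; omega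
    · exact Nat.le_of_dvd (by norm_num) h1
  have h2 := h p hp (by exact_mod_cast hp1)
  have h3 : (p : ℝ) ≤ 5 := by exact_mod_cast h5
  linarith

theorem result : ∀ (k R : ℕ) (η κ : ℝ), 1 ≤ R → 0 ≤ κ → η ≤ 1 → 25 < 3 * (8 * R - 1) * (η - κ) →
    ∃ t : ℕ, 1 ≤ t ∧ ∃ c : ℝ, 0 < c ∧ ∃ ν : ℝ, 0 < ν ∧ ∃ N : ℕ, ∀ n : ℕ, N ≤ n → ¬ 4 ∣ n →
    ∀ q : ℕ, 1 ≤ q → (q : ℝ) ≤ (n : ℝ) ^ (κ / 2) →
    ∀ E : Finset ℕ, E.card ≤ k → (∀ e ∈ E, (e : ℝ) ≤ Real.sqrt n / 1000) → Admissible q (ints E) →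
    ∀ a : ℕ, (∀ e ∈ E, (a + e).Coprime q) → ∀ e₀ ∈ E,
    ∀ x y : ℝ, 0 ≤ x → 29 * (n : ℝ) ≤ x ^ 2 → (n : ℝ) ^ (η / 2) ≤ y → (x + y) ^ 2 ≤ 299 / 10 * (n : ℝ) →
      c * (y / q * dens ⌊Real.sqrt n⌋₊ q (ints E)) ≤
        ((Good n q a E e₀ R ((n : ℝ) ^ ((η - κ) / 14)) ((n : ℝ) ^ (1 / (t : ℝ))) (ν * ((Nat.totient q : ℝ) / q * Real.log n))
          (ν / dens ⌊Real.sqrt n⌋₊ q (ints E)) x y).card : ℝ) := by
  intro k R η κ hR hκ hη hc
  obtain ⟨t, ht, c, hc0, ν, hν, X0, hX⟩ := Pool.Agent.Q117.MG.pryC k R η κ hR hκ hη hc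
  have htR : (0 : ℝ) < t := by exact_mod_cast ht
  obtain ⟨N1, hN1⟩ := exists_nat_ge (max X0 0 ^ 2)
  obtain ⟨N2, hN2⟩ := exists_nat_ge ((5 : ℝ) ^ (2 * t))
  refine ⟨2 * t, by omega, c, hc0, ν / 2, by positivity, max (max N1 N2) 1, ?_⟩
  intro n hn h4 q hq hqn E hEk hE hAd a ha e₀ he₀ x y hx0 hx hy hxy
  rw [max_le_iff, max_le_iff] at hn
  obtain ⟨⟨hn1, hn2⟩, hn3⟩ := hn
  have hn0 : (0 : ℝ) ≤ n := Nat.cast_nonneg n
  have hnp : (0 : ℝ) < n := by exact_mod_cast hn3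
  obtain ⟨S, hS⟩ : ∃ S : ℝ, S = Real.sqrt n := ⟨_, rfl⟩
  have hS2 : S ^ 2 = n := by rw [hS]; exact Real.sq_sqrt hn0
  have hS0 : 0 < S := by rw [hS]; exact Real.sqrt_pos.2 hnp
  have hSr : ∀ u : ℝ, S ^ u = (n : ℝ) ^ (u / 2) := by
    intro u
    rw [hS, Real.sqrt_eq_rpow, ← Real.rpow_mul hn0]
    congr 1
    ring
  have hSX : X0 ≤ S := by
    have h1 : (max X0 0) ^ 2 ≤ S ^ 2 := by
      rw [hS2]
      have : (N1 : ℝ) ≤ n := by exact_mod_cast hn1
      linarith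
    have h2 : max X0 0 ≤ S := by
      exact (abs_le_of_sq_le_sq' h1 hS0.le).2
    exact (le_max_left _ _).trans h2
  have hy0 : 0 < y := lt_of_lt_of_le (Real.rpow_pos_of_pos hnp _) hy
  have hz5 : (5 : ℝ) ≤ (n : ℝ) ^ (1 / ((2 * t : ℕ) : ℝ)) := by
    have h1 : (5 : ℝ) ^ (2 * t) ≤ n := hN2.trans (by exact_mod_cast hn2)
    have h2 : ((5 : ℝ) ^ (2 * t)) ^ (1 / ((2 * t : ℕ) : ℝ)) ≤ (n : ℝ) ^ (1 / ((2 * t : ℕ) : ℝ)) :=
      Real.rpow_le_rpow (by positivity) h1 (by positivity)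
    have h3 : ((5 : ℝ) ^ (2 * t)) ^ (1 / ((2 * t : ℕ) : ℝ)) = 5 := by
      rw [one_div]
      exact Real.pow_rpow_inv_natCast (by norm_num) (by omega)
    rwa [h3] at h2
  have hx29 : 5 * S ≤ x := by
    have h1 : (5 * S) ^ 2 ≤ x ^ 2 := by nlinarith
    exact (abs_le_of_sq_le_sq' h1 hx0).2
  have hxy6 : x + y ≤ 547 / 100 * S := by
    have h1 : (x + y) ^ 2 ≤ (547 / 100 * S) ^ 2 := by nlinarith
    exact (abs_le_of_sq_le_sq' h1 (by positivity)).2
  have key := hX S hSX q hq (by rw [hSr]; exact hqn) E hEk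
    (fun e he => by
      have := hE e he
      rw [← hS] at this
      linarith) hAd a ha e₀ he₀ x y hx0 (by linarith) (by rw [hSr]; exact hy) (by linarith)
  have e1 : S ^ ((η - κ) / 7) = (n : ℝ) ^ ((η - κ) / 14) := by rw [hSr]; congr 1; ring
  have e2 : S ^ (1 / (t : ℝ)) = (n : ℝ) ^ (1 / ((2 * t : ℕ) : ℝ)) := by
    rw [hSr]; congr 1; push_cast; field_simp
  have e3 : Real.log S = Real.log n / 2 := by rw [hS]; exact Real.log_sqrt hn0
  have e4 : ν * ((Nat.totient q : ℝ) / q * Real.log S) = ν / 2 * ((Nat.totient q : ℝ) / q * Real.log n) := by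
    rw [e3]; ring
  rw [e1, e2, e4] at key
  rw [← hS]
  have hD : Pool.Agent.Q117.AP.VQ ⌊S⌋₊ q (Pool.Agent.Q117.MG.ZA E) = dens ⌊S⌋₊ q (ints E) := rfl
  rw [hD] at key
  refine key.trans ?_
  refine Nat.cast_le.2 (card_le_card ?_)
  intro m hm
  classical
  unfold Pool.Agent.Q117.MG.Prm at hm
  unfold Good
  rw [mem_filter] at hm ⊢
  obtain ⟨hm0, hm1, hm2, hm3, hm4, hm5, hm6, hm7⟩ := hm
  rw [mem_Icc] at hm0
  have hmle : (m : ℝ) ≤ x + y := (Nat.le_floor_iff (by positivity)).1 hm0.2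
  refine ⟨mem_Icc.2 hm0, hm1, hm2, ?_, hm3, hm4, hm6, ?_⟩
  · intro e he
    refine ⟨?_, hm5 e he⟩
    have hco : (m + e).Coprime 30 := coprime30 hz5 (by rw [Nat.cast_add]; exact hm5 e he)
    have heS := hE e he
    rw [← hS] at heS
    have he0 : (0 : ℝ) ≤ e := Nat.cast_nonneg e
    have h1 : 29 * n ≤ (m + e) ^ 2 := by
      have h2 : 29 * (n : ℝ) ≤ ((m : ℝ) + e) ^ 2 := by
        have h3 : x ≤ (m : ℝ) + e := by linarith
        exact hx.trans (by gcongr)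
      exact_mod_cast h2
    have h2 : (m + e) ^ 2 ≤ 30 * n := by
      have h2 : ((m : ℝ) + e) ^ 2 ≤ 30 * (n : ℝ) := by
        have h3 : (m : ℝ) + e ≤ (x + y) + S / 1000 := by linarith
        have h4 : ((m : ℝ) + e) ^ 2 ≤ ((x + y) + S / 1000) ^ 2 := by
          have : (0 : ℝ) ≤ (m : ℝ) + e := by positivity
          gcongr
        nlinarith
      exact_mod_cast h2
    obtain ⟨x', y', z', w', h5, h6⟩ := Pool.Agent.H141R2.FS.rep h4 hco h1 h2
    exact ⟨x', y', z', w', h5, h6.symm⟩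
  · intro s hs hsL
    refine hm7 s hs (hsL.trans ?_)
    have hd0 : 0 ≤ dens ⌊S⌋₊ q (ints E) := by
      unfold dens
      refine prod_nonneg ?_
      intro p hp
      rw [mem_filter] at hp
      have hp0 : (0 : ℝ) < p := by exact_mod_cast hp.2.1.pos
      rw [sub_nonneg, div_le_one hp0]
      have h1 : omega (ints E) p ≤ p := by
        unfold omega
        have h2 : (ints E).image (fun e : ℤ => e % (p : ℤ)) ⊆ (Finset.range p).image (fun i : ℕ => (i : ℤ)) := by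
          intro v hv
          obtain ⟨e, _, rfl⟩ := mem_image.1 hv
          have hp0' : (0 : ℤ) < p := by exact_mod_cast hp.2.1.pos
          have h3 := Int.emod_nonneg e hp0'.ne'
          have h4 := Int.emod_lt_of_pos e hp0'
          refine mem_image.2 ⟨(e % (p : ℤ)).toNat, mem_range.2 (by omega), by omega⟩
        exact (card_le_card h2).trans (card_image_le.trans (by rw [card_range]))
      exact_mod_cast h1
    gcongr
    linarith

end Pool.Agent.Results.MP_40574a_nt.QuadruplesInClasses
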