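import Pool.Agent.Q197.FM.Quad2

/-!
# MP_40574a_nt: the question for random sets of integers

The question asks whether every `n > 1` not divisible by `4` is a sum of four squares
`x² + y² + z² + w²` such that `p - 2`, `p`, `p + 4`, `p + 10` are primes, where `p = x + 2 y + 5 z`.

The set of the primes is replaced by a random set `A` of natural numbers. It is only assumed that the
events `m ∈ A` are independent and that `m ∈ A` has probability at least `m ^ (-β)` for all large `m`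
without prime factors up to `m ^ δ`, where `δ > 0` depends on `β` and `ε` only. Then almost surely every
large `n` not divisible by `4` has at least `n ^ (1 / 2 - 2 β - ε)` different `p` with
`p - 2, p, p + 4, p + 10 ∈ A`.
-/

set_option autoImplicit false

namespace Pool.Agent.Results.MP_40574a_nt.RandomPrimeQuadruples

open MeasureTheory ProbabilityTheory Filter

theorem result (β ε : ℝ) (hβ : 0 ≤ β) (hε : 0 < ε) (hβε : 2 * β + ε ≤ 1 / 2) :
    ∃ δ : ℝ, 0 < δ ∧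
      ∀ (Ω : Type) [MeasurableSpace Ω] (μ : Measure Ω) [IsProbabilityMeasure μ] (A : Ω → Set ℕ),
        (∀ m : ℕ, MeasurableSet {ω | m ∈ A ω}) →
        iIndepSet (fun m : ℕ => {ω | m ∈ A ω}) μ →
        (∃ m₀ : ℕ, ∀ m : ℕ, m₀ ≤ m → (∀ q : ℕ, q.Prime → q ∣ m → (m : ℝ) ^ δ < q) →
          (m : ℝ) ^ (-β) ≤ μ.real {ω | m ∈ A ω}) →
        ∀ᵐ ω ∂μ, ∃ n₀ : ℕ, ∀ n : ℕ, n₀ ≤ n → ¬ 4 ∣ n →
          ∃ P : Finset ℕ, (n : ℝ) ^ (1 / 2 - 2 * β - ε) ≤ (P.card : ℝ) ∧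
            ∀ p ∈ P, 2 < p ∧ p - 2 ∈ A ω ∧ p ∈ A ω ∧ p + 4 ∈ A ω ∧ p + 10 ∈ A ω ∧
              ∃ x y z w : ℕ, n = x ^ 2 + y ^ 2 + z ^ 2 + w ^ 2 ∧ p = x + 2 * y + 5 * z := by
  obtain ⟨δ, hδ, n₀, h⟩ := Pool.Agent.Q197.FM.quad_values (ε / 2) (by linarith)
  refine ⟨δ, hδ, fun Ω _ μ _ A hA1 hA2 hm => ?_⟩
  obtain ⟨m₀, hm⟩ := hm
  filter_upwards [Pool.Agent.Q197.FM.quad_random (μ := μ) (A := A) ⟨hA1, hA2⟩ hβ (show 0 < ε / 2 by linarith)
    (by linarith) h hm] with ω h2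
  obtain ⟨n₁, h3⟩ := eventually_atTop.1 h2
  refine ⟨n₁, fun n hn h4 => ?_⟩
  obtain ⟨P, h5, h6⟩ := h3 n hn h4
  refine ⟨P, ?_, fun p hp => ?_⟩
  · have : 1 / 2 - 2 * β - 2 * (ε / 2) = 1 / 2 - 2 * β - ε := by ring
    rwa [this] at h5
  · obtain ⟨g1, g2, g3⟩ := h6 p hp
    exact ⟨g1, g3 0, g3 1, g3 2, g3 3, g2⟩

end Pool.Agent.Results.MP_40574a_nt.RandomPrimeQuadruples
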